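import Mathlib
import Pool.Agent.H27.NumIdxLp

namespace Pool.Agent.Results.MP_95d40a_an.Complex

open scoped ENNReal

/-- numerical radius -/
noncomputable def v {X : Type*} [NormedAddCommGroup X] [NormedSpace ℂ X] (T : X →L[ℂ] X) : ℝ :=
  sSup {s | ∃ (x : X) (f : X →L[ℂ] ℂ), ‖x‖ = 1 ∧ ‖f‖ = 1 ∧ f x = 1 ∧ s = ‖f (T x)‖}

/-- numerical index -/
noncomputable def n (X : Type*) [NormedAddCommGroup X] [NormedSpace ℂ X] : ℝ :=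
  sInf {c | ∃ T : X →L[ℂ] X, ‖T‖ = 1 ∧ c = v T}

theorem result (ι : Type*) [Nontrivial ι] (p : ℝ≥0∞) [Fact (1 ≤ p)] (h1 : 1 < p) (ht : p ≠ ⊤)
    (h2 : p ≠ 2) :
    n (lp (fun _ : ι => ℂ) p) < 1 / (p.toReal ^ (1 / p.toReal) *
      (p.toReal / (p.toReal - 1)) ^ (1 / (p.toReal / (p.toReal - 1)))) := by
  classical
  obtain ⟨φ, w, c, n1, c0, c1, hc⟩ := Pool.Agent.H27.NumIdx.main_lp (𝕜 := ℂ) (ι := ι) h1 ht h2
  refine lt_of_le_of_lt ?_ c1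
  refine le_trans (csInf_le ⟨0, ?_⟩ (by exact ⟨_, n1, rfl⟩)) (Real.sSup_le ?_ c0)
  · rintro _ ⟨T, -, rfl⟩
    apply Real.sSup_nonneg
    rintro _ ⟨x, f, -, -, -, rfl⟩
    exact norm_nonneg _
  · rintro _ ⟨x, f, a, b, d, rfl⟩
    exact hc x f a b d

end Pool.Agent.Results.MP_95d40a_an.Complex
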